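import Mathlib

/-!
# Lattice polytopes inside minimal covering bodies: a counterexample in dimension four
-/

set_option autoImplicit false

namespace Pool.Agent.Results.MP_4f7bfc_co.FailsInDimensionFour

/-- A full-rank lattice in `ℝ^n`: the image of `ℤ^n` under an invertible real matrix. -/
def IsFullRankLattice {n : ℕ} (L : Set (Fin n → ℝ)) : Prop :=
  ∃ A : Matrix (Fin n) (Fin n) ℝ, A.det ≠ 0 ∧
    L = Set.range (fun z : Fin n → ℤ => A.mulVec (fun i => (z i : ℝ)))

/-- A lattice covering body: a compact convex set `K` such that every point of `ℝ^n` lies in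
`K + v` for some lattice vector `v`. -/
def IsLatticeCoveringBody {n : ℕ} (L K : Set (Fin n → ℝ)) : Prop :=
  IsCompact K ∧ Convex ℝ K ∧ ∀ x, ∃ v ∈ L, ∃ y ∈ K, x = y + v

/-- A minimal covering body: a lattice covering body such that no strictly smaller compact convex
set is a lattice covering body. -/
def IsMinimalCoveringBody {n : ℕ} (L K : Set (Fin n → ℝ)) : Prop :=
  IsLatticeCoveringBody L K ∧ ∀ K', K' ⊂ K → ¬ IsLatticeCoveringBody L K'

/-- A full-dimensional lattice polytope: the convex hull of a finite set of lattice points, with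
nonempty interior. -/
def IsFullDimLatticePolytope {n : ℕ} (L Q : Set (Fin n → ℝ)) : Prop :=
  ∃ S : Set (Fin n → ℝ), S.Finite ∧ S ⊆ L ∧ Q = convexHull ℝ S ∧ (interior Q).Nonempty

/-- The translate `Q + x`. -/
def translate {n : ℕ} (Q : Set (Fin n → ℝ)) (x : Fin n → ℝ) : Set (Fin n → ℝ) :=
  {y | ∃ q ∈ Q, y = q + x}

/-- The statement of the conjecture in dimension `n`: for all full-rank lattices, all minimal
covering bodies `K` and all translates `Q + x ⊆ K` of full-dimensional lattice polytopes, every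
vertex of `Q + x` is a boundary point of `K`. -/
def Conjecture (n : ℕ) : Prop :=
  ∀ L : Set (Fin n → ℝ), IsFullRankLattice L → ∀ K, IsMinimalCoveringBody L K →
    ∀ Q, IsFullDimLatticePolytope L Q → ∀ x, translate Q x ⊆ K →
      ∀ p ∈ Set.extremePoints ℝ (translate Q x), p ∈ frontier K

/-! ### The lattice -/

/-- The matrix whose columns span the lattice. -/
def mat : Matrix (Fin 4) (Fin 4) ℝ :=
  !![72, -10, -26, -53; 0, 1, 0, 0; 0, 0, 1, 0; 0, 0, 0, 1]

/-- The lattice of the integer vectors `(a, b, c, d)` with `a + 10 b + 26 c + 53 d` divisible by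
`72`. -/
def lat : Set (Fin 4 → ℝ) := Set.range (fun z : Fin 4 → ℤ => mat.mulVec (fun i => (z i : ℝ)))

theorem mat_det : mat.det = 72 := by
  simp [mat, Matrix.det_succ_row_zero, Fin.sum_univ_succ, Fin.succAbove]

theorem mem_lat (x : Fin 4 → ℝ) : x ∈ lat ↔ ∃ a b c d : ℤ, x = ![(a : ℝ), b, c, d] ∧
    (72 : ℤ) ∣ a + 10 * b + 26 * c + 53 * d := by
  constructor
  · rintro ⟨z, rfl⟩
    refine ⟨72 * z 0 - 10 * z 1 - 26 * z 2 - 53 * z 3, z 1, z 2, z 3, ?_, ⟨z 0, by ring⟩⟩
    ext i
    fin_cases i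
    · simp [mat, Matrix.mulVec, dotProduct, Fin.sum_univ_four]
      ring
    all_goals simp [mat, Matrix.mulVec, dotProduct, Fin.sum_univ_four]
  · rintro ⟨a, b, c, d, rfl, k, hk⟩
    refine ⟨![k, b, c, d], ?_⟩
    have hk' : (a : ℝ) + 10 * b + 26 * c + 53 * d = 72 * k := by exact_mod_cast hk
    ext i
    fin_cases i
    · simp [mat, Matrix.mulVec, dotProduct, Fin.sum_univ_four]
      linarith
    all_goals simp [mat, Matrix.mulVec, dotProduct, Fin.sum_univ_four]

theorem lat_full : IsFullRankLattice lat := ⟨mat, by rw [mat_det]; norm_num, rfl⟩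

theorem lat_closed : IsClosed lat := by
  have h : lat = {x : Fin 4 → ℝ | x 0 ∈ Set.range ((↑) : ℤ → ℝ)} ∩
      {x | x 1 ∈ Set.range ((↑) : ℤ → ℝ)} ∩ {x | x 2 ∈ Set.range ((↑) : ℤ → ℝ)} ∩
      {x | x 3 ∈ Set.range ((↑) : ℤ → ℝ)} ∩
      {x | (x 0 + 10 * x 1 + 26 * x 2 + 53 * x 3) / 72 ∈ Set.range ((↑) : ℤ → ℝ)} := by
    ext x
    rw [mem_lat]
    constructor
    · rintro ⟨a, b, c, d, rfl, k, hk⟩
      have hk' : (a : ℝ) + 10 * b + 26 * c + 53 * d = 72 * k := by exact_mod_cast hk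
      refine ⟨⟨⟨⟨⟨a, rfl⟩, ⟨b, rfl⟩⟩, ⟨c, rfl⟩⟩, ⟨d, rfl⟩⟩, ⟨k, ?_⟩⟩
      show (k : ℝ) = ((a : ℝ) + 10 * b + 26 * c + 53 * d) / 72
      rw [hk']
      ring
    · rintro ⟨⟨⟨⟨⟨a, ha⟩, ⟨b, hb⟩⟩, ⟨c, hc⟩⟩, ⟨d, hd⟩⟩, ⟨k, hk⟩⟩
      refine ⟨a, b, c, d, ?_, k, ?_⟩
      · ext i
        fin_cases i
        · exact ha.symm
        · exact hb.symm
        · exact hc.symm
        · exact hd.symm
      · have : (a : ℝ) + 10 * b + 26 * c + 53 * d = 72 * k := by
          rw [ha, hb, hc, hd, hk]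
          ring
        exact_mod_cast this
  rw [h]
  have hr : IsClosed (Set.range ((↑) : ℤ → ℝ)) := Int.isClosedEmbedding_coe_real.isClosed_range
  refine ((((?_ : IsClosed _).inter ?_).inter ?_).inter ?_).inter ?_
  · exact hr.preimage (continuous_apply 0)
  · exact hr.preimage (continuous_apply 1)
  · exact hr.preimage (continuous_apply 2)
  · exact hr.preimage (continuous_apply 3)
  · exact hr.preimage (by fun_prop)

/-! ### The large covering simplex -/

/-- The simplex of the points with nonnegative coordinates and coordinate sum at most `9`. -/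
def simplex : Set (Fin 4 → ℝ) := {x | (∀ i, 0 ≤ x i) ∧ x 0 + x 1 + x 2 + x 3 ≤ 9}

theorem simplex_closed : IsClosed simplex := by
  have h : simplex = (⋂ i, {x : Fin 4 → ℝ | 0 ≤ x i}) ∩ {x | x 0 + x 1 + x 2 + x 3 ≤ 9} := by
    ext x
    simp [simplex]
  rw [h]
  refine (isClosed_iInter fun i => isClosed_le continuous_const (continuous_apply i)).inter
    (isClosed_le (by fun_prop) continuous_const)

theorem simplex_compact : IsCompact simplex := by
  refine IsCompact.of_isClosed_subset (isCompact_Icc (a := (fun _ => 0 : Fin 4 → ℝ))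
    (b := fun _ => 9)) simplex_closed ?_
  rintro x ⟨h0, h9⟩
  refine ⟨fun i => h0 i, fun i => ?_⟩
  have h := fun i => h0 i
  have h0' := h 0
  have h1' := h 1
  have h2' := h 2
  have h3' := h 3
  fin_cases i <;> simp <;> linarith

theorem simplex_convex : Convex ℝ simplex := by
  rintro x ⟨hx0, hx⟩ y ⟨hy0, hy⟩ a b ha hb hab
  refine ⟨fun i => ?_, ?_⟩
  · have := mul_nonneg ha (hx0 i)
    have := mul_nonneg hb (hy0 i)
    simp only [Pi.add_apply, Pi.smul_apply, smul_eq_mul]
    linarith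
  · simp only [Pi.add_apply, Pi.smul_apply, smul_eq_mul]
    have h1 := mul_le_mul_of_nonneg_left hx ha
    have h2 := mul_le_mul_of_nonneg_left hy hb
    nlinarith

theorem table : ∀ k : Fin 72, ∃ a b c d : Fin 6, (a : ℕ) + b + c + d ≤ 5 ∧
    ((a : ℕ) + 10 * b + 26 * c + 53 * d) % 72 = k := by
  decide +kernel

theorem simplex_covers : ∀ x : Fin 4 → ℝ, ∃ v ∈ lat, ∃ y ∈ simplex, x = y + v := by
  intro x
  set p : Fin 4 → ℤ := fun i => ⌊x i⌋ with hp
  set m : ℤ := p 0 + 10 * p 1 + 26 * p 2 + 53 * p 3 with hm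
  have h0 : 0 ≤ m % 72 := Int.emod_nonneg _ (by norm_num)
  have h72 : m % 72 < 72 := Int.emod_lt_of_pos _ (by norm_num)
  obtain ⟨a, b, c, d, hs, hk⟩ := table ⟨(m % 72).toNat, by omega⟩
  have hk' : (((a : ℕ) + 10 * b + 26 * c + 53 * d : ℕ) : ℤ) % 72 = m % 72 := by
    have := congrArg (fun n : ℕ => (n : ℤ)) hk
    simp only [Int.toNat_of_nonneg h0] at this
    rw [← this]
    norm_cast
  set y : Fin 4 → ℝ := ![(a : ℕ) + Int.fract (x 0), (b : ℕ) + Int.fract (x 1),
    (c : ℕ) + Int.fract (x 2), (d : ℕ) + Int.fract (x 3)] with hy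
  have hf := fun i => Int.fract_nonneg (x i)
  have hf1 := fun i => Int.fract_lt_one (x i)
  refine ⟨![((p 0 - (a : ℕ) : ℤ) : ℝ), ((p 1 - (b : ℕ) : ℤ) : ℝ), ((p 2 - (c : ℕ) : ℤ) : ℝ),
    ((p 3 - (d : ℕ) : ℤ) : ℝ)], ?_, y, ?_, ?_⟩
  · rw [mem_lat]
    refine ⟨_, _, _, _, rfl, ?_⟩
    have h1 : (p 0 - (a : ℕ) : ℤ) + 10 * (p 1 - (b : ℕ)) + 26 * (p 2 - (c : ℕ)) +
        53 * (p 3 - (d : ℕ)) = m - (((a : ℕ) + 10 * b + 26 * c + 53 * d : ℕ) : ℤ) := by
      push_cast
      rw [hm]
      ring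
    rw [h1]
    omega
  · have hs' : ((a : ℕ) : ℝ) + (b : ℕ) + (c : ℕ) + (d : ℕ) ≤ 5 := by exact_mod_cast hs
    refine ⟨fun i => ?_, ?_⟩
    · fin_cases i
      · exact add_nonneg (Nat.cast_nonneg _) (hf 0)
      · exact add_nonneg (Nat.cast_nonneg _) (hf 1)
      · exact add_nonneg (Nat.cast_nonneg _) (hf 2)
      · exact add_nonneg (Nat.cast_nonneg _) (hf 3)
    · show ((a : ℕ) : ℝ) + Int.fract (x 0) + ((b : ℕ) + Int.fract (x 1)) +
        ((c : ℕ) + Int.fract (x 2)) + ((d : ℕ) + Int.fract (x 3)) ≤ 9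
      have h0 := hf1 0
      have h1 := hf1 1
      have h2 := hf1 2
      have h3 := hf1 3
      linarith
  · have hx := fun i => Int.floor_add_fract (x i)
    ext i
    fin_cases i
    · have := hx 0
      simp [hy, hp]
      linarith
    · have := hx 1
      simp [hy, hp]
      linarith
    · have := hx 2
      simp [hy, hp]
      linarith
    · have := hx 3
      simp [hy, hp]
      linarith

/-! ### Existence of minimal covering bodies -/

/-- Every lattice covering body contains a minimal one. -/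
theorem exists_minimal (K₀ : Set (Fin 4 → ℝ)) (h₀ : IsLatticeCoveringBody lat K₀) :
    ∃ K, K ⊆ K₀ ∧ IsMinimalCoveringBody lat K := by
  obtain ⟨K, hK, hmin⟩ := zorn_superset_nonempty {K | IsLatticeCoveringBody lat K} (by
    intro C hC hchain hne
    have hcl : ∀ K ∈ C, IsClosed K := fun K hK => (hC hK).1.isClosed
    refine ⟨⋂₀ C, ⟨?_, ?_, ?_⟩, fun K hK => Set.sInter_subset_of_mem hK⟩
    · obtain ⟨K, hK⟩ := hne
      exact (hC hK).1.of_isClosed_subset (isClosed_sInter hcl) (Set.sInter_subset_of_mem hK)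
    · exact convex_sInter fun K hK => (hC hK).2.1
    · intro x
      have hclx : IsClosed {y : Fin 4 → ℝ | x - y ∈ lat} :=
        lat_closed.preimage (continuous_const.sub continuous_id)
      have hne' : Nonempty C := hne.to_subtype
      have hinter : (⋂ K : C, ((K : Set (Fin 4 → ℝ)) ∩ {y | x - y ∈ lat})).Nonempty := by
        apply IsCompact.nonempty_iInter_of_directed_nonempty_isCompact_isClosed
        · intro K₁ K₂
          rcases hchain.total K₁.2 K₂.2 with h | h
          · exact ⟨K₁, subset_rfl, Set.inter_subset_inter_left _ h⟩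
          · exact ⟨K₂, Set.inter_subset_inter_left _ h, subset_rfl⟩
        · intro K
          obtain ⟨v, hv, y, hy, hxy⟩ := (hC K.2).2.2 x
          refine ⟨y, hy, ?_⟩
          show x - y ∈ lat
          rw [hxy, add_sub_cancel_left]
          exact hv
        · intro K
          exact (hC K.2).1.inter_right hclx
        · intro K
          exact (hcl K K.2).inter hclx
      obtain ⟨y, hy⟩ := hinter
      rw [Set.mem_iInter] at hy
      obtain ⟨K, hK⟩ := hne
      refine ⟨x - y, (hy ⟨K, hK⟩).2, y, ?_, by abel⟩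
      rw [Set.mem_sInter]
      exact fun K hK => (hy ⟨K, hK⟩).1) K₀ h₀
  refine ⟨K, hK, hmin.prop, fun K' hK' h => ?_⟩
  exact hK'.2 (hmin.le_of_le h hK'.1)

/-! ### The forced points -/

/-- A covering subset of the simplex contains the points `q + u` with `u i < 1` and
`∑ u i > 3`, if `q` is the only vector of natural numbers with sum at most five in its class. -/
theorem forced_open {K : Set (Fin 4 → ℝ)} (hK : ∀ x, ∃ v ∈ lat, ∃ y ∈ K, x = y + v)
    (hsub : K ⊆ simplex) (q : Fin 4 → ℕ)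
    (hq : ∀ a b c d : ℕ, a + b + c + d ≤ 5 →
      (a + 10 * b + 26 * c + 53 * d) % 72 = (q 0 + 10 * q 1 + 26 * q 2 + 53 * q 3) % 72 →
      a = q 0 ∧ b = q 1 ∧ c = q 2 ∧ d = q 3)
    (u : Fin 4 → ℝ) (hu1 : ∀ i, u i < 1) (hu : 3 < u 0 + u 1 + u 2 + u 3) :
    (fun i => (q i : ℝ) + u i) ∈ K := by
  obtain ⟨v, hv, y, hy, hxy⟩ := hK (fun i => (q i : ℝ) + u i)
  obtain ⟨a, b, c, d, rfl, hdvd⟩ := (mem_lat v).1 hv
  obtain ⟨hy0, hy9⟩ := hsub hy
  have e0 : (q 0 : ℝ) + u 0 = y 0 + a := congrFun hxy 0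
  have e1 : (q 1 : ℝ) + u 1 = y 1 + b := congrFun hxy 1
  have e2 : (q 2 : ℝ) + u 2 = y 2 + c := congrFun hxy 2
  have e3 : (q 3 : ℝ) + u 3 = y 3 + d := congrFun hxy 3
  have hpos : ∀ (i : Fin 4) (m : ℤ), (q i : ℝ) + u i = y i + m → 0 ≤ (q i : ℤ) - m := by
    intro i m h
    have h0 := hy0 i
    have h1 := hu1 i
    have : (-1 : ℝ) < (((q i : ℤ) - m : ℤ) : ℝ) := by
      push_cast
      linarith
    have : (-1 : ℤ) < (q i : ℤ) - m := by exact_mod_cast this
    omega
  have p0 := hpos 0 a e0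
  have p1 := hpos 1 b e1
  have p2 := hpos 2 c e2
  have p3 := hpos 3 d e3
  have hsum : ((q 0 : ℤ) - a) + ((q 1 : ℤ) - b) + ((q 2 : ℤ) - c) + ((q 3 : ℤ) - d) < 6 := by
    have : ((((q 0 : ℤ) - a) + ((q 1 : ℤ) - b) + ((q 2 : ℤ) - c) + ((q 3 : ℤ) - d) : ℤ) : ℝ) < 6 := by
      push_cast
      linarith
    exact_mod_cast this
  have n0 := Int.toNat_of_nonneg p0
  have n1 := Int.toNat_of_nonneg p1
  have n2 := Int.toNat_of_nonneg p2
  have n3 := Int.toNat_of_nonneg p3
  clear hpos e0 e1 e2 e3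
  generalize ((q 0 : ℤ) - a).toNat = m0 at n0
  generalize ((q 1 : ℤ) - b).toNat = m1 at n1
  generalize ((q 2 : ℤ) - c).toNat = m2 at n2
  generalize ((q 3 : ℤ) - d).toNat = m3 at n3
  have h5 : m0 + m1 + m2 + m3 ≤ 5 := by omega
  have hmod : (m0 + 10 * m1 + 26 * m2 + 53 * m3) % 72 =
      (q 0 + 10 * q 1 + 26 * q 2 + 53 * q 3) % 72 := by omega
  obtain ⟨k0, k1, k2, k3⟩ := hq m0 m1 m2 m3 h5 hmod
  clear hmod hdvd hsum p0 p1 p2 p3 hq
  have ha : a = 0 := by
    rw [k0] at n0
    linarith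
  have hb : b = 0 := by
    rw [k1] at n1
    linarith
  have hc : c = 0 := by
    rw [k2] at n2
    linarith
  have hd : d = 0 := by
    rw [k3] at n3
    linarith
  have : (fun i => (q i : ℝ) + u i) = y := by
    rw [hxy, ha, hb, hc, hd]
    ext i
    fin_cases i <;> simp
  rw [this]
  exact hy

/-- The same for the closed conditions. -/
theorem forced_closed {K : Set (Fin 4 → ℝ)} (hK : ∀ x, ∃ v ∈ lat, ∃ y ∈ K, x = y + v)
    (hcl : IsClosed K) (hsub : K ⊆ simplex) (q : Fin 4 → ℕ)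
    (hq : ∀ a b c d : ℕ, a + b + c + d ≤ 5 →
      (a + 10 * b + 26 * c + 53 * d) % 72 = (q 0 + 10 * q 1 + 26 * q 2 + 53 * q 3) % 72 →
      a = q 0 ∧ b = q 1 ∧ c = q 2 ∧ d = q 3)
    (w : Fin 4 → ℝ) (hw1 : ∀ i, w i ≤ 1) (hw : 3 ≤ w 0 + w 1 + w 2 + w 3) :
    (fun i => (q i : ℝ) + w i) ∈ K := by
  have hmem : ∀ t ∈ Set.Ioo (0 : ℝ) 1,
      (fun i => (q i : ℝ) + ((1 - t) * w i + t * (7 / 8))) ∈ K := by
    rintro t ⟨ht0, ht1⟩
    apply forced_open hK hsub q hq
    · intro i
      have := mul_le_mul_of_nonneg_left (hw1 i) (sub_nonneg.2 ht1.le)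
      linarith
    · have := mul_le_mul_of_nonneg_left hw (sub_nonneg.2 ht1.le)
      linarith
  have hcont : Continuous (fun t : ℝ => (fun i => (q i : ℝ) + ((1 - t) * w i + t * (7 / 8)) :
      Fin 4 → ℝ)) := by
    refine continuous_pi fun i => ?_
    fun_prop
  have h0 : (0 : ℝ) ∈ closure (Set.Ioo (0 : ℝ) 1) := by
    rw [closure_Ioo (by norm_num)]
    exact ⟨le_rfl, zero_le_one⟩
  have h := map_mem_closure hcont h0 hmem
  rw [hcl.closure_eq] at h
  simpa using h

/-! ### Convex combinations and interior points -/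

theorem comb2 {K : Set (Fin 4 → ℝ)} (hK : Convex ℝ K) {x y z : Fin 4 → ℝ} (hx : x ∈ K)
    (hy : y ∈ K) (a b : ℝ) (ha : 0 ≤ a) (hb : 0 ≤ b) (hab : a + b = 1)
    (h : ∀ i, z i = a * x i + b * y i) : z ∈ K := by
  have : z = a • x + b • y := by
    ext i
    simp [h i]
  rw [this]
  exact hK hx hy ha hb hab

theorem comb3 {K : Set (Fin 4 → ℝ)} (hK : Convex ℝ K) {x y z t : Fin 4 → ℝ} (hx : x ∈ K)
    (hy : y ∈ K) (hz : z ∈ K) (a b c : ℝ) (ha : 0 < a) (hb : 0 ≤ b) (hc : 0 ≤ c)
    (habc : a + b + c = 1) (h : ∀ i, t i = a * x i + b * y i + c * z i) : t ∈ K := by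
  have h1 : (a / (a + b)) • x + (b / (a + b)) • y ∈ K :=
    hK hx hy (by positivity) (by positivity) (by field_simp)
  have : t = (a + b) • ((a / (a + b)) • x + (b / (a + b)) • y) + c • z := by
    ext i
    simp only [h i, Pi.add_apply, Pi.smul_apply, smul_eq_mul]
    have : a + b ≠ 0 := by positivity
    field_simp
  rw [this]
  exact hK h1 hz (by positivity) hc habc

/-- If a convex set contains the points `v ± δ e_i`, then `v` is an interior point. -/
theorem mem_interior_of_cross {K : Set (Fin 4 → ℝ)} (hK : Convex ℝ K) (v : Fin 4 → ℝ) (δ : ℝ)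
    (hδ : 0 < δ) (h1 : ∀ i, v + Pi.single i δ ∈ K) (h2 : ∀ i, v - Pi.single i δ ∈ K) :
    v ∈ interior K := by
  rw [mem_interior_iff_mem_nhds, Metric.mem_nhds_iff]
  refine ⟨δ / 4, by positivity, fun y hy => ?_⟩
  have hd : ∀ i, |y i - v i| ≤ δ / 4 := by
    intro i
    have h := dist_le_pi_dist y v i
    rw [Real.dist_eq] at h
    exact h.trans (le_of_lt (Metric.mem_ball.1 hy))
  have hseg : ∀ i, v + Pi.single i (4 * (y i - v i)) ∈ K := by
    intro i
    have hi := abs_le.1 (hd i)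
    have : v + Pi.single i (4 * (y i - v i)) =
        ((1 + 4 * (y i - v i) / δ) / 2) • (v + Pi.single i δ) +
        ((1 - 4 * (y i - v i) / δ) / 2) • (v - Pi.single i δ) := by
      ext j
      by_cases hj : j = i
      · subst hj
        simp only [Pi.add_apply, Pi.single_eq_same, Pi.smul_apply, Pi.sub_apply, smul_eq_mul]
        field_simp
        ring
      · simp only [Pi.add_apply, Pi.single_eq_of_ne hj, Pi.smul_apply, Pi.sub_apply, smul_eq_mul]
        ring
    rw [this]
    have h4 : |4 * (y i - v i) / δ| ≤ 1 := by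
      rw [abs_div, abs_of_pos hδ, div_le_one hδ, abs_mul, abs_of_pos (by norm_num : (0:ℝ) < 4)]
      linarith [hd i]
    have h4' := abs_le.1 h4
    exact hK (h1 i) (h2 i) (by linarith) (by linarith) (by ring)
  have : y = ∑ i : Fin 4, (1 / 4 : ℝ) • (v + Pi.single i (4 * (y i - v i))) := by
    ext j
    simp only [Fin.sum_univ_four, Pi.add_apply, Pi.smul_apply, smul_eq_mul]
    fin_cases j <;> simp <;> ring
  rw [this]
  exact hK.sum_mem (fun _ _ => by norm_num) (by norm_num) (fun i _ => hseg i)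

/-! ### The lattice polytope -/

/-- The point of contact inside. -/
def pt : Fin 4 → ℝ := ![1, 5, 1, 1]

/-- The vertices of the lattice simplex. -/
def verts : Set (Fin 4 → ℝ) :=
  {![0, 0, 0, 0], ![-1, -4, 1, 3], ![0, -4, 3, 2], ![1, -2, 0, -1], ![3, -3, -1, 1]}

/-- The lattice simplex. -/
def poly : Set (Fin 4 → ℝ) := convexHull ℝ verts

theorem verts_sub : verts ⊆ lat := by
  intro x hx
  simp only [verts, Set.mem_insert_iff, Set.mem_singleton_iff] at hx
  rw [mem_lat]
  rcases hx with rfl | rfl | rfl | rfl | rfl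
  · exact ⟨0, 0, 0, 0, by simp, by norm_num⟩
  · exact ⟨-1, -4, 1, 3, by simp, by norm_num⟩
  · exact ⟨0, -4, 3, 2, by simp, by norm_num⟩
  · exact ⟨1, -2, 0, -1, by simp, by norm_num⟩
  · exact ⟨3, -3, -1, 1, by simp, by norm_num⟩

theorem verts_finite : verts.Finite := by
  unfold verts
  exact Set.toFinite _

/-- The combinations of the vertices. -/
theorem mem_poly (a b c d e : ℝ) (ha : 0 ≤ a) (hb : 0 ≤ b) (hc : 0 ≤ c) (hd : 0 ≤ d) (he : 0 ≤ e)
    (h : a + b + c + d + e = 1) (x : Fin 4 → ℝ)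
    (h0 : x 0 = -b + d + 3 * e) (h1 : x 1 = -4 * b - 4 * c - 2 * d - 3 * e)
    (h2 : x 2 = b + 3 * c - e) (h3 : x 3 = 3 * b + 2 * c - d + e) : x ∈ poly := by
  have hs : ∑ i : Fin 5, (![a, b, c, d, e] i) •
      ((![![0, 0, 0, 0], ![-1, -4, 1, 3], ![0, -4, 3, 2], ![1, -2, 0, -1], ![3, -3, -1, 1]] :
        Fin 5 → Fin 4 → ℝ) i) ∈ poly := by
    apply (convex_convexHull ℝ verts).sum_mem
    · intro i _
      fin_cases i <;> simpa
    · simpa [Fin.sum_univ_five] using h
    · intro i _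
      apply subset_convexHull
      fin_cases i <;> simp [verts]
  convert hs using 1
  ext j
  fin_cases j
  · simp [Fin.sum_univ_five, h0]
    ring
  · simp [Fin.sum_univ_five, h1]
    ring
  · simp [Fin.sum_univ_five, h2]
    ring
  · simp [Fin.sum_univ_five, h3]
    ring

theorem poly_interior : (interior poly).Nonempty := by
  refine ⟨![3 / 5, -13 / 5, 3 / 5, 1], mem_interior_of_cross (convex_convexHull ℝ verts) _ (1 / 5)
    (by norm_num) (fun i => ?_) (fun i => ?_)⟩
  · fin_cases i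
    · exact mem_poly ((1 + 1 / 24) / 5) ((1 - 23 / 72) / 5) ((1 + 5 / 24) / 5) ((1 - 17 / 72) / 5)
        ((1 + 11 / 36) / 5) (by norm_num) (by norm_num) (by norm_num) (by norm_num) (by norm_num)
        (by norm_num) _ (by simp; norm_num) (by simp; norm_num) (by simp; norm_num)
        (by simp; norm_num)
    · exact mem_poly ((1 + 5 / 12) / 5) ((1 - 7 / 36) / 5) ((1 + 1 / 12) / 5) ((1 - 13 / 36) / 5)
        ((1 + 1 / 18) / 5) (by norm_num) (by norm_num) (by norm_num) (by norm_num) (by norm_num)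
        (by norm_num) _ (by simp; norm_num) (by simp; norm_num) (by simp; norm_num)
        (by simp; norm_num)
    · exact mem_poly ((1 + 1 / 12) / 5) ((1 - 11 / 36) / 5) ((1 + 5 / 12) / 5) ((1 - 5 / 36) / 5)
        ((1 - 1 / 18) / 5) (by norm_num) (by norm_num) (by norm_num) (by norm_num) (by norm_num)
        (by norm_num) _ (by simp; norm_num) (by simp; norm_num) (by simp; norm_num)
        (by simp; norm_num)
    · exact mem_poly ((1 + 5 / 24) / 5) ((1 + 5 / 72) / 5) ((1 + 1 / 24) / 5) ((1 - 37 / 72) / 5)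
        ((1 + 7 / 36) / 5) (by norm_num) (by norm_num) (by norm_num) (by norm_num) (by norm_num)
        (by norm_num) _ (by simp; norm_num) (by simp; norm_num) (by simp; norm_num)
        (by simp; norm_num)
  · fin_cases i
    · exact mem_poly ((1 - 1 / 24) / 5) ((1 + 23 / 72) / 5) ((1 - 5 / 24) / 5) ((1 + 17 / 72) / 5)
        ((1 - 11 / 36) / 5) (by norm_num) (by norm_num) (by norm_num) (by norm_num) (by norm_num)
        (by norm_num) _ (by simp; norm_num) (by simp; norm_num) (by simp; norm_num)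
        (by simp; norm_num)
    · exact mem_poly ((1 - 5 / 12) / 5) ((1 + 7 / 36) / 5) ((1 - 1 / 12) / 5) ((1 + 13 / 36) / 5)
        ((1 - 1 / 18) / 5) (by norm_num) (by norm_num) (by norm_num) (by norm_num) (by norm_num)
        (by norm_num) _ (by simp; norm_num) (by simp; norm_num) (by simp; norm_num)
        (by simp; norm_num)
    · exact mem_poly ((1 - 1 / 12) / 5) ((1 + 11 / 36) / 5) ((1 - 5 / 12) / 5) ((1 + 5 / 36) / 5)
        ((1 + 1 / 18) / 5) (by norm_num) (by norm_num) (by norm_num) (by norm_num) (by norm_num)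
        (by norm_num) _ (by simp; norm_num) (by simp; norm_num) (by simp; norm_num)
        (by simp; norm_num)
    · exact mem_poly ((1 - 5 / 24) / 5) ((1 - 5 / 72) / 5) ((1 - 1 / 24) / 5) ((1 + 37 / 72) / 5)
        ((1 - 7 / 36) / 5) (by norm_num) (by norm_num) (by norm_num) (by norm_num) (by norm_num)
        (by norm_num) _ (by simp; norm_num) (by simp; norm_num) (by simp; norm_num)
        (by simp; norm_num)

theorem poly_lattice : IsFullDimLatticePolytope lat poly :=
  ⟨verts, verts_finite, verts_sub, rfl, poly_interior⟩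

/-- The linear functional `x₀ + 10 x₁ + 2 x₂ + 5 x₃` has its maximum on the simplex at the origin
only. -/
theorem poly_sub : poly ⊆ {y | y = 0 ∨ y 0 + 10 * y 1 + 2 * y 2 + 5 * y 3 < 0} := by
  apply convexHull_min
  · intro x hx
    simp only [verts, Set.mem_insert_iff, Set.mem_singleton_iff] at hx
    rcases hx with rfl | rfl | rfl | rfl | rfl
    · left
      ext i
      fin_cases i <;> simp
    all_goals
      right
      simp
      norm_num
  · rintro x hx y hy a b ha hb hab
    have key : ∀ z : Fin 4 → ℝ, z ∈ {y : Fin 4 → ℝ | y = 0 ∨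
        y 0 + 10 * y 1 + 2 * y 2 + 5 * y 3 < 0} → z 0 + 10 * z 1 + 2 * z 2 + 5 * z 3 ≤ 0 := by
      rintro z (rfl | hz)
      · simp
      · exact hz.le
    rcases ha.eq_or_lt with rfl | ha'
    · rw [zero_add] at hab
      subst hab
      simpa using hy
    · rcases hb.eq_or_lt with rfl | hb'
      · rw [add_zero] at hab
        subst hab
        simpa using hx
      · rcases hx with rfl | hx
        · rcases hy with rfl | hy
          · left
            simp
          · right
            simp only [Pi.add_apply, Pi.smul_apply, smul_eq_mul, Pi.zero_apply]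
            have := mul_neg_of_pos_of_neg hb' hy
            linarith
        · right
          have hy' := key y hy
          simp only [Pi.add_apply, Pi.smul_apply, smul_eq_mul]
          have h1 := mul_neg_of_pos_of_neg ha' hx
          have h2 := mul_nonpos_of_nonneg_of_nonpos hb hy'
          linarith

/-! ### The forced corners -/

/-- The vector `q` is the only vector of natural numbers with sum at most five in its class. -/
def Unique5 (q : Fin 4 → ℕ) : Prop :=
  ∀ a b c d : ℕ, a + b + c + d ≤ 5 →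
    (a + 10 * b + 26 * c + 53 * d) % 72 = (q 0 + 10 * q 1 + 26 * q 2 + 53 * q 3) % 72 →
    a = q 0 ∧ b = q 1 ∧ c = q 2 ∧ d = q 3

theorem uniq_table0 : ∀ a b c d : Fin 6, (a : ℕ) + b + c + d ≤ 5 →
    ((a : ℕ) + 10 * b + 26 * c + 53 * d) % 72 = 50 →
    (a : ℕ) = 0 ∧ (b : ℕ) = 5 ∧ (c : ℕ) = 0 ∧ (d : ℕ) = 0 := by
  decide +kernel

theorem uniq0 : Unique5 ![0, 5, 0, 0] := by
  intro a b c d hs h
  exact uniq_table0 ⟨a, by omega⟩ ⟨b, by omega⟩ ⟨c, by omega⟩ ⟨d, by omega⟩ hs (by simpa using h)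

theorem uniq_table1 : ∀ a b c d : Fin 6, (a : ℕ) + b + c + d ≤ 5 →
    ((a : ℕ) + 10 * b + 26 * c + 53 * d) % 72 = 20 →
    (a : ℕ) = 0 ∧ (b : ℕ) = 2 ∧ (c : ℕ) = 0 ∧ (d : ℕ) = 0 := by
  decide +kernel

theorem uniq1 : Unique5 ![0, 2, 0, 0] := by
  intro a b c d hs h
  exact uniq_table1 ⟨a, by omega⟩ ⟨b, by omega⟩ ⟨c, by omega⟩ ⟨d, by omega⟩ hs (by simpa using h)

theorem uniq_table2 : ∀ a b c d : Fin 6, (a : ℕ) + b + c + d ≤ 5 →
    ((a : ℕ) + 10 * b + 26 * c + 53 * d) % 72 = 52 →
    (a : ℕ) = 0 ∧ (b : ℕ) = 0 ∧ (c : ℕ) = 2 ∧ (d : ℕ) = 0 := by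
  decide +kernel

theorem uniq2 : Unique5 ![0, 0, 2, 0] := by
  intro a b c d hs h
  exact uniq_table2 ⟨a, by omega⟩ ⟨b, by omega⟩ ⟨c, by omega⟩ ⟨d, by omega⟩ hs (by simpa using h)

theorem uniq_table3 : ∀ a b c d : Fin 6, (a : ℕ) + b + c + d ≤ 5 →
    ((a : ℕ) + 10 * b + 26 * c + 53 * d) % 72 = 58 →
    (a : ℕ) = 0 ∧ (b : ℕ) = 0 ∧ (c : ℕ) = 5 ∧ (d : ℕ) = 0 := by
  decide +kernel

theorem uniq3 : Unique5 ![0, 0, 5, 0] := by
  intro a b c d hs h
  exact uniq_table3 ⟨a, by omega⟩ ⟨b, by omega⟩ ⟨c, by omega⟩ ⟨d, by omega⟩ hs (by simpa using h)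

theorem uniq_table4 : ∀ a b c d : Fin 6, (a : ℕ) + b + c + d ≤ 5 →
    ((a : ℕ) + 10 * b + 26 * c + 53 * d) % 72 = 49 →
    (a : ℕ) = 0 ∧ (b : ℕ) = 0 ∧ (c : ℕ) = 0 ∧ (d : ℕ) = 5 := by
  decide +kernel

theorem uniq4 : Unique5 ![0, 0, 0, 5] := by
  intro a b c d hs h
  exact uniq_table4 ⟨a, by omega⟩ ⟨b, by omega⟩ ⟨c, by omega⟩ ⟨d, by omega⟩ hs (by simpa using h)

theorem uniq_table5 : ∀ a b c d : Fin 6, (a : ℕ) + b + c + d ≤ 5 →
    ((a : ℕ) + 10 * b + 26 * c + 53 * d) % 72 = 5 →
    (a : ℕ) = 5 ∧ (b : ℕ) = 0 ∧ (c : ℕ) = 0 ∧ (d : ℕ) = 0 := by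
  decide +kernel

theorem uniq5 : Unique5 ![5, 0, 0, 0] := by
  intro a b c d hs h
  exact uniq_table5 ⟨a, by omega⟩ ⟨b, by omega⟩ ⟨c, by omega⟩ ⟨d, by omega⟩ hs (by simpa using h)

theorem uniq_table6 : ∀ a b c d : Fin 6, (a : ℕ) + b + c + d ≤ 5 →
    ((a : ℕ) + 10 * b + 26 * c + 53 * d) % 72 = 4 →
    (a : ℕ) = 4 ∧ (b : ℕ) = 0 ∧ (c : ℕ) = 0 ∧ (d : ℕ) = 0 := by
  decide +kernel

theorem uniq6 : Unique5 ![4, 0, 0, 0] := by
  intro a b c d hs h
  exact uniq_table6 ⟨a, by omega⟩ ⟨b, by omega⟩ ⟨c, by omega⟩ ⟨d, by omega⟩ hs (by simpa using h)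

/-- The point `x` is in a covering subset of the simplex when it is `q + w` with
`w i ≤ 1` and `∑ w i ≥ 3`. -/
theorem corner {K : Set (Fin 4 → ℝ)} (hK : ∀ x, ∃ v ∈ lat, ∃ y ∈ K, x = y + v)
    (hcl : IsClosed K) (hsub : K ⊆ simplex) (q : Fin 4 → ℕ) (hq : Unique5 q) (x : Fin 4 → ℝ)
    (h1 : ∀ i, x i ≤ q i + 1)
    (h3 : (q 0 + q 1 + q 2 + q 3 : ℝ) + 3 ≤ x 0 + x 1 + x 2 + x 3) : x ∈ K := by
  have h := forced_closed hK hcl hsub q hq (fun i => x i - q i) (fun i => by linarith [h1 i])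
    (by linarith)
  convert h using 1
  ext i
  ring

theorem inside {K : Set (Fin 4 → ℝ)} (hcomp : IsCompact K) (hconv : Convex ℝ K)
    (hK : ∀ x, ∃ v ∈ lat, ∃ y ∈ K, x = y + v) (hsub : K ⊆ simplex) :
    pt ∈ interior K ∧ translate poly pt ⊆ K := by
  have hc := fun q hq x h1 h3 => corner hK hcomp.isClosed hsub q hq x h1 h3
  have p1611 : (![1, 6, 1, 1] : Fin 4 → ℝ) ∈ K := by
    refine hc _ uniq0 _ (fun i => ?_) ?_
    · fin_cases i
      all_goals simp
      all_goals norm_num
    · simp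
      try norm_num
  have p0611 : (![0, 6, 1, 1] : Fin 4 → ℝ) ∈ K := by
    refine hc _ uniq0 _ (fun i => ?_) ?_
    · fin_cases i
      all_goals simp
      all_goals norm_num
    · simp
      try norm_num
  have p1601 : (![1, 6, 0, 1] : Fin 4 → ℝ) ∈ K := by
    refine hc _ uniq0 _ (fun i => ?_) ?_
    · fin_cases i
      all_goals simp
      all_goals norm_num
    · simp
      try norm_num
  have p1610 : (![1, 6, 1, 0] : Fin 4 → ℝ) ∈ K := by
    refine hc _ uniq0 _ (fun i => ?_) ?_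
    · fin_cases i
      all_goals simp
      all_goals norm_num
    · simp
      try norm_num
  have p0311 : (![0, 3, 1, 1] : Fin 4 → ℝ) ∈ K := by
    refine hc _ uniq1 _ (fun i => ?_) ?_
    · fin_cases i
      all_goals simp
      all_goals norm_num
    · simp
      try norm_num
  have p1301 : (![1, 3, 0, 1] : Fin 4 → ℝ) ∈ K := by
    refine hc _ uniq1 _ (fun i => ?_) ?_
    · fin_cases i
      all_goals simp
      all_goals norm_num
    · simp
      try norm_num
  have p1310 : (![1, 3, 1, 0] : Fin 4 → ℝ) ∈ K := by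
    refine hc _ uniq1 _ (fun i => ?_) ?_
    · fin_cases i
      all_goals simp
      all_goals norm_num
    · simp
      try norm_num
  have p1031 : (![1, 0, 3, 1] : Fin 4 → ℝ) ∈ K := by
    refine hc _ uniq2 _ (fun i => ?_) ?_
    · fin_cases i
      all_goals simp
      all_goals norm_num
    · simp
      try norm_num
  have p0131 : (![0, 1, 3, 1] : Fin 4 → ℝ) ∈ K := by
    refine hc _ uniq2 _ (fun i => ?_) ?_
    · fin_cases i
      all_goals simp
      all_goals norm_num
    · simp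
      try norm_num
  have p1161 : (![1, 1, 6, 1] : Fin 4 → ℝ) ∈ K := by
    refine hc _ uniq3 _ (fun i => ?_) ?_
    · fin_cases i
      all_goals simp
      all_goals norm_num
    · simp
      try norm_num
  have p0161 : (![0, 1, 6, 1] : Fin 4 → ℝ) ∈ K := by
    refine hc _ uniq3 _ (fun i => ?_) ?_
    · fin_cases i
      all_goals simp
      all_goals norm_num
    · simp
      try norm_num
  have p1116 : (![1, 1, 1, 6] : Fin 4 → ℝ) ∈ K := by
    refine hc _ uniq4 _ (fun i => ?_) ?_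
    · fin_cases i
      all_goals simp
      all_goals norm_num
    · simp
      try norm_num
  have p0116 : (![0, 1, 1, 6] : Fin 4 → ℝ) ∈ K := by
    refine hc _ uniq4 _ (fun i => ?_) ?_
    · fin_cases i
      all_goals simp
      all_goals norm_num
    · simp
      try norm_num
  have p1106 : (![1, 1, 0, 6] : Fin 4 → ℝ) ∈ K := by
    refine hc _ uniq4 _ (fun i => ?_) ?_
    · fin_cases i
      all_goals simp
      all_goals norm_num
    · simp
      try norm_num
  have p6111 : (![6, 1, 1, 1] : Fin 4 → ℝ) ∈ K := by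
    refine hc _ uniq5 _ (fun i => ?_) ?_
    · fin_cases i
      all_goals simp
      all_goals norm_num
    · simp
      try norm_num
  have p6101 : (![6, 1, 0, 1] : Fin 4 → ℝ) ∈ K := by
    refine hc _ uniq5 _ (fun i => ?_) ?_
    · fin_cases i
      all_goals simp
      all_goals norm_num
    · simp
      try norm_num
  have p5110 : (![5, 1, 1, 0] : Fin 4 → ℝ) ∈ K := by
    refine hc _ uniq6 _ (fun i => ?_) ?_
    · fin_cases i
      all_goals simp
      all_goals norm_num
    · simp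
      try norm_num
  have a0 : (![2, 5, 1, 1] : Fin 4 → ℝ) ∈ K :=
    comb2 hconv p1611 p6111 (4 / 5) (1 / 5) (by norm_num) (by norm_num) (by norm_num)
      (fun i => by fin_cases i <;> simp <;> norm_num)
  have b0 : (![0, 5, 1, 1] : Fin 4 → ℝ) ∈ K :=
    comb2 hconv p0311 p0611 (1 / 3) (2 / 3) (by norm_num) (by norm_num) (by norm_num)
      (fun i => by fin_cases i <;> simp <;> norm_num)
  have b1 : (![1, 4, 1, 1] : Fin 4 → ℝ) ∈ K :=
    comb2 hconv p1031 p1601 (1 / 3) (2 / 3) (by norm_num) (by norm_num) (by norm_num)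
      (fun i => by fin_cases i <;> simp <;> norm_num)
  have a2 : (![1, 5, 2, 1] : Fin 4 → ℝ) ∈ K :=
    comb2 hconv p1161 p1611 (1 / 5) (4 / 5) (by norm_num) (by norm_num) (by norm_num)
      (fun i => by fin_cases i <;> simp <;> norm_num)
  have b2 : (![1, 5, 0, 1] : Fin 4 → ℝ) ∈ K :=
    comb2 hconv p1301 p1601 (1 / 3) (2 / 3) (by norm_num) (by norm_num) (by norm_num)
      (fun i => by fin_cases i <;> simp <;> norm_num)
  have a3 : (![1, 5, 1, 2] : Fin 4 → ℝ) ∈ K :=
    comb2 hconv p1116 p1611 (1 / 5) (4 / 5) (by norm_num) (by norm_num) (by norm_num)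
      (fun i => by fin_cases i <;> simp <;> norm_num)
  have b3 : (![1, 5, 1, 0] : Fin 4 → ℝ) ∈ K :=
    comb2 hconv p1310 p1610 (1 / 3) (2 / 3) (by norm_num) (by norm_num) (by norm_num)
      (fun i => by fin_cases i <;> simp <;> norm_num)
  have r1 : (![0, 1, 2, 4] : Fin 4 → ℝ) ∈ K :=
    comb3 hconv p0116 p0131 p0161 (3 / 5) (1 / 3) (1 / 15) (by norm_num) (by norm_num)
      (by norm_num) (by norm_num) (fun i => by fin_cases i <;> simp <;> norm_num)
  have r2 : (![1, 1, 4, 3] : Fin 4 → ℝ) ∈ K :=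
    comb2 hconv p1116 p1161 (2 / 5) (3 / 5) (by norm_num) (by norm_num) (by norm_num)
      (fun i => by fin_cases i <;> simp <;> norm_num)
  have r3 : (![2, 3, 1, 0] : Fin 4 → ℝ) ∈ K :=
    comb3 hconv p1310 p1610 p5110 (7 / 12) (1 / 6) (1 / 4) (by norm_num) (by norm_num)
      (by norm_num) (by norm_num) (fun i => by fin_cases i <;> simp <;> norm_num)
  have r4 : (![4, 2, 0, 2] : Fin 4 → ℝ) ∈ K :=
    comb3 hconv p1106 p1601 p6101 (1 / 5) (1 / 5) (3 / 5) (by norm_num) (by norm_num)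
      (by norm_num) (by norm_num) (fun i => by fin_cases i <;> simp <;> norm_num)
  have hint : pt ∈ interior K := by
    apply mem_interior_of_cross hconv pt 1 one_pos
    · intro i
      fin_cases i
      · convert a0 using 1
        ext j
        fin_cases j <;> simp [pt] <;> norm_num
      · convert p1611 using 1
        ext j
        fin_cases j <;> simp [pt] <;> norm_num
      · convert a2 using 1
        ext j
        fin_cases j <;> simp [pt] <;> norm_num
      · convert a3 using 1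
        ext j
        fin_cases j <;> simp [pt] <;> norm_num
    · intro i
      fin_cases i
      · convert b0 using 1
        ext j
        fin_cases j <;> simp [pt]
      · convert b1 using 1
        ext j
        fin_cases j <;> simp [pt] <;> norm_num
      · convert b2 using 1
        ext j
        fin_cases j <;> simp [pt]
      · convert b3 using 1
        ext j
        fin_cases j <;> simp [pt]
  refine ⟨hint, ?_⟩
  have hsub' : poly ⊆ {q | q + pt ∈ K} := by
    apply convexHull_min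
    · intro x hx
      simp only [verts, Set.mem_insert_iff, Set.mem_singleton_iff] at hx
      rcases hx with rfl | rfl | rfl | rfl | rfl
      · show _ + pt ∈ K
        convert interior_subset hint using 1
        ext j
        fin_cases j <;> simp [pt]
      · show _ + pt ∈ K
        convert r1 using 1
        ext j
        fin_cases j <;> simp [pt] <;> norm_num
      · show _ + pt ∈ K
        convert r2 using 1
        ext j
        fin_cases j <;> simp [pt] <;> norm_num
      · show _ + pt ∈ K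
        convert r3 using 1
        ext j
        fin_cases j <;> simp [pt] <;> norm_num
      · show _ + pt ∈ K
        convert r4 using 1
        ext j
        fin_cases j <;> simp [pt] <;> norm_num
    · intro x hx y hy a b ha hb hab
      show a • x + b • y + pt ∈ K
      have : a • x + b • y + pt = a • (x + pt) + b • (y + pt) := by
        have : pt = a • pt + b • pt := by rw [← add_smul, hab, one_smul]
        nth_rewrite 1 [this]
        simp only [smul_add]
        abel
      rw [this]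
      exact hconv hx hy ha hb hab
  rintro _ ⟨q, hq, rfl⟩
  exact hsub' hq

theorem pt_extreme : pt ∈ Set.extremePoints ℝ (translate poly pt) := by
  have hzero : (0 : Fin 4 → ℝ) ∈ poly := by
    apply subset_convexHull
    left
    ext i
    fin_cases i <;> simp
  refine ⟨⟨0, hzero, by simp⟩, ?_⟩
  rintro _ ⟨x, hx, rfl⟩ _ ⟨y, hy, rfl⟩ ⟨a, b, ha, hb, hab, h⟩
  have h' : a • x + b • y = 0 := by
    have h2 : a • (x + pt) + b • (y + pt) = a • x + b • y + pt := by
      have : pt = a • pt + b • pt := by rw [← add_smul, hab, one_smul]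
      nth_rewrite 3 [this]
      simp only [smul_add]
      abel
    rw [h2] at h
    simpa using h
  have hf : a * (x 0 + 10 * x 1 + 2 * x 2 + 5 * x 3) + b * (y 0 + 10 * y 1 + 2 * y 2 + 5 * y 3) =
      0 := by
    have e0 := congrFun h' 0
    have e1 := congrFun h' 1
    have e2 := congrFun h' 2
    have e3 := congrFun h' 3
    simp only [Pi.add_apply, Pi.smul_apply, smul_eq_mul, Pi.zero_apply] at e0 e1 e2 e3
    linear_combination e0 + 10 * e1 + 2 * e2 + 5 * e3
  rcases poly_sub hx with rfl | hx'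
  · simp
  · exfalso
    have hy' : y 0 + 10 * y 1 + 2 * y 2 + 5 * y 3 ≤ 0 := by
      rcases poly_sub hy with rfl | hy'
      · simp
      · exact hy'.le
    have h1 := mul_neg_of_pos_of_neg ha hx'
    have h2 := mul_nonpos_of_nonneg_of_nonpos hb.le hy'
    linarith

/-- **The conjecture on lattice polytopes in minimal covering bodies fails in dimension four.**
There are a full-rank lattice in `ℝ^4`, a minimal covering body `K` for it, a full-dimensional
lattice polytope `Q` and a vector `x` with `Q + x ⊆ K` such that some vertex of `Q + x` is an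
interior point of `K`. -/
theorem result :
    (∃ L : Set (Fin 4 → ℝ), IsFullRankLattice L ∧ ∃ K, IsMinimalCoveringBody L K ∧
      ∃ Q, IsFullDimLatticePolytope L Q ∧ ∃ x, translate Q x ⊆ K ∧
        ∃ p ∈ Set.extremePoints ℝ (translate Q x), p ∈ interior K) ∧
    ¬ Conjecture 4 ∧ ¬ ∀ n : ℕ, 1 ≤ n → Conjecture n := by
  have h : ∃ L : Set (Fin 4 → ℝ), IsFullRankLattice L ∧ ∃ K, IsMinimalCoveringBody L K ∧
      ∃ Q, IsFullDimLatticePolytope L Q ∧ ∃ x, translate Q x ⊆ K ∧
        ∃ p ∈ Set.extremePoints ℝ (translate Q x), p ∈ interior K := by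
    obtain ⟨K, hsub, hmin⟩ := exists_minimal simplex
      ⟨simplex_compact, simplex_convex, simplex_covers⟩
    obtain ⟨h1, h2⟩ := inside hmin.1.1 hmin.1.2.1 hmin.1.2.2 hsub
    exact ⟨lat, lat_full, K, hmin, poly, poly_lattice, pt, h2, pt, pt_extreme, h1⟩
  have h4 : ¬ Conjecture 4 := by
    intro hc
    obtain ⟨L, hL, K, hK, Q, hQ, x, hx, p, hp, hpi⟩ := h
    exact (hc L hL K hK Q hQ x hx p hp).2 hpi
  exact ⟨h, h4, fun hall => h4 (hall 4 (by norm_num))⟩

end Pool.Agent.Results.MP_4f7bfc_co.FailsInDimensionFour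

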